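import Pool.Agent.LE.StmtsQY
import Pool.Agent.Helper54_LIR.CPEb
import Pool.Agent.Helper76_LQD.RAL
import Pool.Agent.Helper90_LQX.EGB

/-!
# Squad LQY (MP_1906c1_mp), rows SMZ and MAZ: common part
-/

set_option autoImplicit false

open MeasureTheory ProbabilityTheory Function Filter

open scoped ENNReal BigOperators Topology NNReal ComplexOrder Matrix

noncomputable section

namespace Pool.Agent.LE.QY.H60

open Pool.Agent.Anderson hiding box mem_box card_box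
open Pool.Agent.Loc Pool.Agent.Mob Pool.Agent.Helper54.Bal
  Pool.Agent.Helper96.EXP Pool.Agent.BED
open Pool.Agent.LE.MN Pool.Agent.LE.CL Pool.Agent.LE.IR Pool.Agent.LE.QD Pool.Agent.LE.QF

/-! ### Numbers -/

theorem nums {θ₀ : ℝ} (hθ : 0 < θ₀) : ∃ c₁ : ℝ, 0 < c₁ ∧ c₁ ≤ 1 / 4 ∧ ∀ s T : ℝ, 0 < s → s ≤ c₁ →
    s ^ (-3 : ℝ) ≤ T → T ≤ Real.exp (s ^ (-(θ₀ / 2))) →
    64 ≤ T ∧ 1 ≤ T * s ^ 3 ∧ 1 / T ≤ s ^ 3 ∧
    ∃ M L : ℕ, M ≠ 0 ∧ 1 ≤ L ∧ 4 * L + 9 ≤ M ∧ T ^ 2 ≤ s ^ 4 * M ∧ T ^ 2 ≤ 8 * s ^ 4 * L ∧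
      s ^ (-5 : ℝ) ≤ M ∧ (M : ℝ) ≤ Real.exp (s ^ (-θ₀)) ∧
      ∀ (d : ℕ) (ε : ℝ), 3 ≤ d → ε ≤ 1 → s ^ (-ε) ≤ 1 / T * (M : ℝ) ^ d := by
  obtain ⟨K, hK⟩ : ∃ K : ℝ, K = 3 + 8 / θ₀ := ⟨_, rfl⟩
  have hK3 : 3 ≤ K := by
    rw [hK]
    have : 0 < 8 / θ₀ := by positivity
    linarith
  have hK0 : 0 < K := by linarith
  refine ⟨min (1 / 4) (K ^ (-(2 / θ₀))), lt_min (by norm_num) (Real.rpow_pos_of_pos hK0 _),
    min_le_left _ _, ?_⟩
  intro s T hs hsc hT hTe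
  have hs4 : s ≤ 1 / 4 := hsc.trans (min_le_left _ _)
  have hs1 : s ≤ 1 := by linarith
  have hsK : s ≤ K ^ (-(2 / θ₀)) := hsc.trans (min_le_right _ _)
  obtain ⟨u, hu⟩ : ∃ u : ℝ, u = s ^ (-(θ₀ / 2)) := ⟨_, rfl⟩
  have huK : K ≤ u := by
    have h1 : (K ^ (-(2 / θ₀))) ^ (-(θ₀ / 2)) ≤ s ^ (-(θ₀ / 2)) :=
      Real.rpow_le_rpow_of_nonpos hs hsK (by
        have : 0 < θ₀ / 2 := by positivity
        linarith)
    have h2 : (K ^ (-(2 / θ₀))) ^ (-(θ₀ / 2)) = K := by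
      rw [← Real.rpow_mul hK0.le]
      have : -(2 / θ₀) * -(θ₀ / 2) = 1 := by
        field_simp
      rw [this, Real.rpow_one]
    rw [hu, ← h2]
    exact h1
  have hu2 : u ^ 2 = s ^ (-θ₀) := by
    rw [hu, ← Real.rpow_natCast, ← Real.rpow_mul hs.le]
    congr 1
    push_cast
    ring
  rw [← hu] at hTe
  have hs3 : s ^ (-3 : ℝ) = (s ^ 3)⁻¹ := by
    rw [Real.rpow_neg hs.le]
    congr 1
    exact_mod_cast Real.rpow_natCast s 3
  have hs5 : s ^ (-5 : ℝ) = (s ^ 5)⁻¹ := by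
    rw [Real.rpow_neg hs.le]
    congr 1
    exact_mod_cast Real.rpow_natCast s 5
  rw [hs3] at hT
  have hp3 : 0 < s ^ 3 := by positivity
  have hT3 : 1 ≤ T * s ^ 3 := by
    have := mul_le_mul_of_nonneg_right hT hp3.le
    rwa [inv_mul_cancel₀ hp3.ne'] at this
  have hs64 : s ^ 3 ≤ 1 / 64 := by
    have := pow_le_pow_left₀ hs.le hs4 3
    norm_num at this ⊢
    exact this
  have hT0 : 0 < T := by
    by_contra h
    push Not at h
    nlinarith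
  have hT64 : 64 ≤ T := by nlinarith
  refine ⟨hT64, hT3, ?_, ?_⟩
  · rw [div_le_iff₀ hT0, mul_comm]
    exact hT3
  have hp4 : 0 < s ^ 4 := by positivity
  have hs44 : s ^ 4 ≤ 1 := pow_le_one₀ hs.le hs1
  obtain ⟨M, hM⟩ : ∃ M : ℕ, M = ⌈T ^ 2 / s ^ 4⌉₊ := ⟨_, rfl⟩
  have hM1 : T ^ 2 / s ^ 4 ≤ M := by
    rw [hM]
    exact Nat.le_ceil _
  have hM2 : (M : ℝ) ≤ T ^ 2 / s ^ 4 + 1 := by
    rw [hM]
    exact (Nat.ceil_lt_add_one (by positivity)).le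
  have hTs : 4096 ≤ T ^ 2 / s ^ 4 := by
    rw [le_div_iff₀ hp4]
    nlinarith
  have hM3 : T ^ 2 ≤ s ^ 4 * M := by
    rw [div_le_iff₀ hp4] at hM1
    rw [mul_comm]
    exact hM1
  have hMb : (4096 : ℝ) ≤ M := hTs.trans hM1
  have hMn : 4096 ≤ M := by exact_mod_cast hMb
  obtain ⟨L, hL⟩ : ∃ L : ℕ, L = (M - 9) / 4 := ⟨_, rfl⟩
  have hL8 : M ≤ 8 * L := by omega
  have hL8' : (M : ℝ) ≤ 8 * L := by exact_mod_cast hL8
  refine ⟨M, L, by omega, by omega, by omega, hM3, ?_, ?_, ?_, ?_⟩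
  · calc T ^ 2 ≤ s ^ 4 * M := hM3
      _ ≤ s ^ 4 * (8 * L) := by gcongr
      _ = _ := by ring
  · rw [hs5, inv_le_iff_one_le_mul₀ (by positivity)]
    have h1 : 1 ≤ s * T := by
      have h2 : T * s ^ 3 = s * T * s ^ 2 := by ring
      rw [h2] at hT3
      have h3 : s ^ 2 ≤ 1 := pow_le_one₀ hs.le hs1
      have h4 : 0 < s * T := by positivity
      nlinarith
    calc (1 : ℝ) ≤ s * T * T := by nlinarith
      _ = s * T ^ 2 := by ring
      _ ≤ s * (s ^ 4 * M) := by gcongr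
      _ = M * s ^ 5 := by ring
  · rw [← hu2]
    have h1 : (M : ℝ) ≤ 2 * (T ^ 2 / s ^ 4) := by linarith
    have h2 : T ^ 2 ≤ Real.exp (2 * u) := by
      have := pow_le_pow_left₀ hT0.le hTe 2
      rw [← Real.exp_nat_mul] at this
      exact_mod_cast this
    have h3 : 1 / s ^ 4 ≤ Real.exp (8 / θ₀ * u) := by
      have h4 : Real.log (1 / s) ≤ (1 / s) ^ (θ₀ / 2) / (θ₀ / 2) :=
        Real.log_le_rpow_div (by positivity) (by positivity)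
      have h5 : (1 / s) ^ (θ₀ / 2) = u := by
        rw [hu, one_div, Real.inv_rpow hs.le, Real.rpow_neg hs.le]
      rw [h5] at h4
      have h6 : 1 / s ^ 4 = Real.exp (4 * Real.log (1 / s)) := by
        have h7 := Real.exp_nat_mul (Real.log (1 / s)) 4
        rw [Real.exp_log (by positivity)] at h7
        push_cast at h7
        rw [h7]
        ring
      rw [h6]
      apply Real.exp_le_exp.2
      calc 4 * Real.log (1 / s) ≤ 4 * (u / (θ₀ / 2)) := by linarith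
        _ = 8 / θ₀ * u := by
          field_simp
          ring
    have h8 : (2 : ℝ) ≤ Real.exp 1 := by
      have := Real.add_one_le_exp (1 : ℝ)
      linarith
    have hu1 : 1 ≤ u := by linarith
    calc (M : ℝ) ≤ 2 * (T ^ 2 / s ^ 4) := h1
      _ = 2 * (T ^ 2 * (1 / s ^ 4)) := by ring
      _ ≤ Real.exp 1 * (Real.exp (2 * u) * Real.exp (8 / θ₀ * u)) := by gcongr
      _ = Real.exp (1 + (2 * u + 8 / θ₀ * u)) := by rw [Real.exp_add, Real.exp_add]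
      _ ≤ Real.exp (u ^ 2) := by
        apply Real.exp_le_exp.2
        have h9 : K * u ≤ u * u := by gcongr
        rw [hK] at h9
        nlinarith
  · intro d ε hd hε
    have h1 : s ^ (-ε) ≤ s ^ (-1 : ℝ) :=
      Real.rpow_le_rpow_of_exponent_ge hs hs1 (by linarith)
    have h2 : s ^ (-1 : ℝ) = 1 / s := by
      rw [Real.rpow_neg_one, one_div]
    have hM1' : (1 : ℝ) ≤ M := by linarith
    have h3 : (M : ℝ) ≤ (M : ℝ) ^ d := by
      calc (M : ℝ) = (M : ℝ) ^ 1 := (pow_one _).symm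
        _ ≤ (M : ℝ) ^ d := pow_le_pow_right₀ hM1' (by omega)
    have h4 : 1 / s ≤ T := by
      rw [div_le_iff₀ hs]
      have h5 : T * s ^ 3 = T * s * s ^ 2 := by ring
      rw [h5] at hT3
      have h6 : s ^ 2 ≤ 1 := pow_le_one₀ hs.le hs1
      have h7 : 0 < T * s := by positivity
      nlinarith
    have h5 : T ≤ 1 / T * M := by
      rw [one_div, ← div_eq_inv_mul, le_div_iff₀ hT0]
      have : s ^ 4 * M ≤ 1 * M := by gcongr
      nlinarith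
    calc s ^ (-ε) ≤ 1 / s := by rw [← h2]; exact h1
      _ ≤ T := h4
      _ ≤ 1 / T * M := h5
      _ ≤ 1 / T * (M : ℝ) ^ d := by gcongr

/-! ### The law -/

theorem lin_eq {d M : ℕ} [NeZero M] {σ : ℝ} (hσ : σ ≠ 0) {v : ℝ≥0} (hv : (v : ℝ) = σ ^ 2)
    (b : Site d) (F : (Tor d M → ℝ) → ℝ≥0∞) (hF : Measurable F) :
    ∫⁻ V, F (fun x : Tor d M => V (b + rep x)) ∂(PP d (gl σ)) = ∫⁻ U, F U ∂(gau d M v) := by
  set f : (Site d → ℝ) → (Tor d M → ℝ) := fun V x => V (b + rep x) with hf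
  have hfm : Measurable f := measurable_pi_lambda _ fun x => measurable_pi_apply _
  have h4 := H73.lawT d M (Site d → ℝ) (PP d (gl σ)) (H86.xi σ b) (H86.measurable_xi σ b)
    (H86.map_xi hσ b) (H86.indep_xi b) σ v hv
  have h5 : (fun (V : Site d → ℝ) (x : Tor d M) => σ * H86.xi σ b (rep x) V) = f := by
    funext V x
    simp only [H86.xi, hf]
    field_simp
  rw [h5] at h4
  rw [← h4, lintegral_map hF hfm]

theorem meas_rs {d M : ℕ} [NeZero M] {z : ℂ} (hz : 0 < z.im) (x y : Tor d M) :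
    Measurable fun V : Tor d M → ℝ => ‖rs V z x y‖ ^ 2 :=
  (((QD.H76.cont z hz.ne' x y).norm).pow 2).measurable

/-! ### Geometry -/

theorem ti_zero {d M : ℕ} : ti M (0 : Site d) 0 = 0 := by
  funext i
  unfold ti
  simp

theorem ti_inj {d M : ℕ} [NeZero M] {L : ℕ} (hM : 2 * L + 1 ≤ M) {x y : Site d}
    (hx : x ∈ box 0 L) (hy : y ∈ box 0 L) (h : ti M 0 x = ti M 0 y) : x = y := by
  rw [mem_box] at hx hy
  rw [← QX.H90.rep_ti hM hx, h, QX.H90.rep_ti hM hy]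

theorem sum_ti {d M : ℕ} [NeZero M] {L : ℕ} (hM : 2 * L + 1 ≤ M) (A : Finset (Site d))
    (hA : A ⊆ box 0 L) (f : Tor d M → ℝ) (hf : ∀ y, 0 ≤ f y) :
    ∑ x ∈ A, f (ti M 0 x) ≤ ∑ y, f y := by
  classical
  rw [← Finset.sum_image (s := A) (f := f) (g := fun x => ti M 0 x)
    (fun x hx y hy h => ti_inj hM (hA hx) (hA hy) h)]
  exact Finset.sum_le_sum_of_subset_of_nonneg (Finset.subset_univ _) (fun y _ _ => hf y)

theorem vma {d M : ℕ} [NeZero M] {L : ℕ} (hM : 2 * L + 1 ≤ M) {x : Site d}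
    (hx : x ∈ box 0 L) (i : Fin d) : (ti M 0 x i).valMinAbs = x i := by
  rw [mem_box] at hx
  exact congrFun (QX.H90.rep_ti hM hx) i

theorem vma' {d M : ℕ} [NeZero M] {L : ℕ} (hM : 2 * L + 1 ≤ M) {x : Site d}
    (hx : x ∈ box 0 L) (i : Fin d) :
    ((((0 - ti M 0 x) i).valMinAbs : ℤ) : ℝ) ^ 2 = (x i : ℝ) ^ 2 := by
  have h1 : (0 - ti M 0 x : Tor d M) i = -(ti M 0 x i) := by
    rw [Pi.sub_apply, Pi.zero_apply, zero_sub]
  rw [h1, ← vma hM hx i]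
  have h2 := ZMod.natAbs_valMinAbs_neg (ti M 0 x i)
  have h3 := Int.natAbs_eq_natAbs_iff.1 h2
  rcases h3 with h | h
  · rw [h]
  · rw [h]
    push_cast
    ring

theorem sd_sq {d : ℕ} (hd : 1 ≤ d) (x : Site d) : (sd 0 x : ℝ) ^ 2 ≤ ∑ i, (x i : ℝ) ^ 2 := by
  have : NeZero d := ⟨by omega⟩
  obtain ⟨i, hi⟩ := exists_sd_eq (0 : Site d) x
  have h1 : ((sd 0 x : ℤ) : ℝ) = |(x i : ℝ)| := by
    rw [hi]
    push_cast
    rw [Pi.zero_apply, Int.cast_zero, zero_sub, abs_neg]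
  have h2 : (sd 0 x : ℝ) ^ 2 = (x i : ℝ) ^ 2 := by
    have : (sd 0 x : ℝ) = |(x i : ℝ)| := by exact_mod_cast h1
    rw [this, sq_abs]
  rw [h2]
  exact Finset.single_le_sum (f := fun i => (x i : ℝ) ^ 2) (fun j _ => by positivity)
    (Finset.mem_univ i)

theorem nsq (a b : ℂ) : ‖a‖ ^ 2 ≤ 2 * ‖b‖ ^ 2 + 2 * ‖a - b‖ ^ 2 := by
  have h1 : ‖a‖ ≤ ‖b‖ + ‖a - b‖ := by
    have := norm_add_le b (a - b)
    rwa [add_sub_cancel] at this
  have h2 := norm_nonneg a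
  nlinarith [sq_nonneg (‖b‖ - ‖a - b‖), norm_nonneg b, norm_nonneg (a - b)]

/-- the comparison, with the origin -/
theorem ltt0 {d M : ℕ} [NeZero M] {C : ℝ} {L : ℕ} (V : Site d → ℝ) {E η : ℝ}
    (h : ∑ y ∈ box 0 L, ‖G V ⟨E, η⟩ (del ((0 : Site d) + 0)) (0 + y) -
        rs (fun p : Tor d M => V (0 + rep p)) ⟨E, η⟩ (ti M 0 0) (ti M 0 y)‖ ^ 2 ≤
          C / ((L : ℝ) ^ 6 * η ^ 8)) :
    ∑ y ∈ box 0 L, ‖G V ⟨E, η⟩ (del 0) y -
        rs (fun p : Tor d M => V (0 + rep p)) ⟨E, η⟩ 0 (ti M 0 y)‖ ^ 2 ≤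
          C / ((L : ℝ) ^ 6 * η ^ 8) := by
  refine le_trans (le_of_eq ?_) h
  refine Finset.sum_congr rfl fun y _ => ?_
  rw [add_zero, zero_add, ti_zero]

end Pool.Agent.LE.QY.H60
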