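import Pool.Agent.Helper60_LQY.Base

/-!
# Squad LQY (MP_1906c1_mp), row MAZ: the diffusive lower bound on the lattice
-/

set_option autoImplicit false

open MeasureTheory ProbabilityTheory Function Filter

open scoped ENNReal BigOperators Topology NNReal ComplexOrder Matrix

noncomputable section

namespace Pool.Agent.LE.QY.H60

open Pool.Agent.Anderson hiding box mem_box card_box
open Pool.Agent.Loc Pool.Agent.Mob Pool.Agent.Helper54.Bal
  Pool.Agent.Helper96.EXP Pool.Agent.BED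
open Pool.Agent.LE.MN Pool.Agent.LE.CL Pool.Agent.LE.IR Pool.Agent.LE.QD Pool.Agent.LE.QF

/-- the mass in a box on the torus -/
def MB {d M : ℕ} [NeZero M] (z : ℂ) (R : ℕ) (U : Tor d M → ℝ) : ℝ :=
  ∑ y, if ∀ i, |((y i).valMinAbs : ℝ)| ≤ R then ‖rs U z 0 y‖ ^ 2 else 0

theorem MB_nn {d M : ℕ} [NeZero M] (z : ℂ) (R : ℕ) (U : Tor d M → ℝ) : 0 ≤ MB z R U :=
  Finset.sum_nonneg fun y _ => by
    split_ifs
    · positivity
    · exact le_rfl

theorem MB_meas {d M : ℕ} [NeZero M] {z : ℂ} (hz : 0 < z.im) (R : ℕ) :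
    Measurable fun U : Tor d M → ℝ => MB z R U :=
  Finset.measurable_sum _ fun y _ => by
    by_cases h : ∀ i, |((y i).valMinAbs : ℝ)| ≤ R
    · simp only [if_pos h]
      exact meas_rs hz 0 y
    · simp only [if_neg h]
      exact measurable_const

/-- the comparison -/
theorem mass_le {d M : ℕ} [NeZero M] {C T E : ℝ} {L R : ℕ} (V : Site d → ℝ)
    (hT : 0 < T) (hL : 1 ≤ L) (hM : 2 * L + 1 ≤ M) (hR : R ≤ L)
    (h : ∑ y ∈ box 0 L, ‖G V ⟨E, 1 / T⟩ (del 0) y -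
        rs (fun p : Tor d M => V (0 + rep p)) ⟨E, 1 / T⟩ 0 (ti M 0 y)‖ ^ 2 ≤
          C / ((L : ℝ) ^ 6 * (1 / T) ^ 8)) :
    ∑ x ∈ box 0 R, rh V T E x ≤
      2 / T * MB ⟨E, 1 / T⟩ R (fun p : Tor d M => V (0 + rep p)) +
        2 * C * T ^ 7 / (L : ℝ) ^ 6 := by
  have hL0 : (0 : ℝ) < L := by exact_mod_cast hL
  obtain ⟨W, hW⟩ : ∃ W : Tor d M → ℝ, W = fun p => V (0 + rep p) := ⟨_, rfl⟩
  obtain ⟨z, hz⟩ : ∃ z : ℂ, z = ⟨E, 1 / T⟩ := ⟨_, rfl⟩
  rw [← hW, ← hz] at h ⊢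
  have hsub : box (0 : Site d) R ⊆ box 0 L := by
    intro x hx
    rw [mem_box] at hx ⊢
    omega
  have h1 : ∀ x ∈ box (0 : Site d) R, rh V T E x ≤
      2 / T * (if ∀ i, |((ti M 0 x i).valMinAbs : ℝ)| ≤ R then ‖rs W z 0 (ti M 0 x)‖ ^ 2
        else 0) + 2 / T * ‖G V z (del 0) x - rs W z 0 (ti M 0 x)‖ ^ 2 := by
    intro x hx
    have hx' := hx
    rw [mem_box, sd_le_iff] at hx'
    rw [if_pos (fun i => by
      rw [vma hM (hsub hx) i]
      have h2 := hx' i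
      rw [Pi.zero_apply, zero_sub, abs_neg] at h2
      exact_mod_cast h2)]
    have e4 := nsq (G V z (del 0) x) (rs W z 0 (ti M 0 x))
    unfold rh
    rw [← hz]
    calc ‖G V z (del 0) x‖ ^ 2 / T
        = 1 / T * ‖G V z (del 0) x‖ ^ 2 := by ring
      _ ≤ 1 / T * (2 * ‖rs W z 0 (ti M 0 x)‖ ^ 2 +
            2 * ‖G V z (del 0) x - rs W z 0 (ti M 0 x)‖ ^ 2) := by gcongr
      _ = _ := by ring
  refine (Finset.sum_le_sum h1).trans ?_
  rw [Finset.sum_add_distrib, ← Finset.mul_sum, ← Finset.mul_sum]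
  have h2 : ∑ x ∈ box (0 : Site d) R,
      (if ∀ i, |((ti M 0 x i).valMinAbs : ℝ)| ≤ R then ‖rs W z 0 (ti M 0 x)‖ ^ 2 else 0) ≤
      MB z R W :=
    sum_ti hM (box 0 R) hsub
      (fun y => if ∀ i, |((y i).valMinAbs : ℝ)| ≤ R then ‖rs W z 0 y‖ ^ 2 else 0) (fun y => by
        split_ifs
        · positivity
        · exact le_rfl)
  have h3 : 2 / T * ∑ x ∈ box (0 : Site d) R,
      ‖G V z (del 0) x - rs W z 0 (ti M 0 x)‖ ^ 2 ≤ 2 * C * T ^ 7 / (L : ℝ) ^ 6 := by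
    calc 2 / T * ∑ x ∈ box (0 : Site d) R,
        ‖G V z (del 0) x - rs W z 0 (ti M 0 x)‖ ^ 2
        ≤ 2 / T * (C / ((L : ℝ) ^ 6 * (1 / T) ^ 8)) := by
          refine mul_le_mul_of_nonneg_left ?_ (by positivity)
          exact (Finset.sum_le_sum_of_subset_of_nonneg hsub (fun y _ _ => by positivity)).trans h
      _ = 2 * C * T ^ 7 / (L : ℝ) ^ 6 := by
        field_simp
  exact add_le_add (by gcongr) h3

theorem maz (tma : TmaStmt) (ltt : LttStmt) : MazStmt := by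
  intro d a ε hd ha hε hε1
  have hd1 : 1 ≤ d := by omega
  obtain ⟨θ₀, c₀, hθ₀, hc₀, hc₀4, H⟩ := tma d a ε hd ha hε hε1
  obtain ⟨C, hC1, hC⟩ := ltt d hd1
  obtain ⟨θ₁, hθ₁⟩ : ∃ θ₁ : ℝ, θ₁ = min θ₀ 1 := ⟨_, rfl⟩
  have hθ₁0 : 0 < θ₁ := hθ₁ ▸ lt_min hθ₀ one_pos
  have hθ₁1 : θ₁ ≤ 1 := hθ₁ ▸ min_le_right _ _
  have hθ₁θ : θ₁ ≤ θ₀ := hθ₁ ▸ min_le_left _ _
  obtain ⟨c₁, hc₁, hc₁4, hn⟩ := nums hθ₁0
  obtain ⟨B, hB⟩ : ∃ B : ℝ, B = 2 + 524288 * C := ⟨_, rfl⟩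
  have hB0 : 0 < B := by rw [hB]; linarith
  refine ⟨θ₁ / 2, min (min c₀ c₁) (B ^ (-(2 / θ₁))), by linarith,
    lt_min (lt_min hc₀ hc₁) (Real.rpow_pos_of_pos hB0 _),
    (min_le_left _ _).trans ((min_le_left _ _).trans hc₀4), ?_⟩
  intro σ E T hσ hσc hE hT hTe
  obtain ⟨s, hs⟩ : ∃ s : ℝ, s = |σ| := ⟨_, rfl⟩
  rw [← hs] at hσc hT hTe ⊢
  have hs0 : 0 < s := hs ▸ abs_pos.2 hσ
  have hsc0 : s ≤ c₀ := hσc.trans ((min_le_left _ _).trans (min_le_left _ _))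
  have hsc1 : s ≤ c₁ := hσc.trans ((min_le_left _ _).trans (min_le_right _ _))
  have hsB : s ≤ B ^ (-(2 / θ₁)) := hσc.trans (min_le_right _ _)
  have hs1 : s ≤ 1 := by linarith
  obtain ⟨hT64, hT3, hTs, M, L, hM0, hL1, hLM, hTM, hTL, hM5, hMe, hMd⟩ :=
    hn s T hs0 hsc1 hT hTe
  have hMe' : (M : ℝ) ≤ Real.exp (s ^ (-θ₀)) := by
    refine hMe.trans (Real.exp_le_exp.2 ?_)
    exact Real.rpow_le_rpow_of_exponent_ge hs0 hs1 (by linarith)
  have : NeZero M := ⟨hM0⟩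
  have hT0 : 0 < T := by linarith
  have hη : 0 < 1 / T := by positivity
  have hη1 : 1 / T ≤ 1 := by
    rw [div_le_one hT0]
    linarith
  have hM2 : 2 * L + 1 ≤ M := by omega
  have hL0 : (0 : ℝ) < L := by exact_mod_cast hL1
  obtain ⟨v, hv⟩ : ∃ v : ℝ≥0, (v : ℝ) = σ ^ 2 := ⟨⟨σ ^ 2, sq_nonneg σ⟩, rfl⟩
  obtain ⟨ρ, hρ⟩ : ∃ ρ : ℝ, ρ = s ^ (ε - 1) * Real.sqrt T := ⟨_, rfl⟩
  have hρ0 : 0 ≤ ρ := by
    rw [hρ]
    positivity
  obtain ⟨R, hR⟩ : ∃ R : ℕ, R = ⌊ρ⌋₊ := ⟨_, rfl⟩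
  have hRρ : (R : ℝ) ≤ ρ := by
    rw [hR]
    exact Nat.floor_le hρ0
  have hρT : s * ρ ≤ T := by
    have e1 : s ^ (ε - 1) ≤ s ^ (-1 : ℝ) :=
      Real.rpow_le_rpow_of_exponent_ge hs0 hs1 (by linarith)
    rw [Real.rpow_neg_one] at e1
    have e2 : Real.sqrt T ≤ T := by
      rw [Real.sqrt_le_left hT0.le]
      nlinarith
    calc s * ρ = s * (s ^ (ε - 1) * Real.sqrt T) := by rw [hρ]
      _ ≤ s * (s⁻¹ * T) := by gcongr
      _ = T := by rw [← mul_assoc, mul_inv_cancel₀ hs0.ne', one_mul]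
  have hs4 : s ^ 4 ≤ 1 := pow_le_one₀ hs0.le hs1
  have hs2 : s ^ 2 ≤ 1 := pow_le_one₀ hs0.le hs1
  have hs3 : s ^ 3 ≤ 1 := pow_le_one₀ hs0.le hs1
  have hRL : R ≤ L := by
    have h1 : (R : ℝ) ≤ L := by
      refine hRρ.trans ?_
      have e1 : s * ρ * T ≤ s * (8 * s ^ 3 * L) := by
        calc s * ρ * T ≤ T * T := by gcongr
          _ = T ^ 2 := by ring
          _ ≤ 8 * s ^ 4 * L := hTL
          _ = _ := by ring
      have e2 : ρ * T ≤ 8 * s ^ 3 * L := by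
        have : s * (ρ * T) ≤ s * (8 * s ^ 3 * L) := by rw [← mul_assoc]; exact e1
        exact le_of_mul_le_mul_left this hs0
      have e3 : 8 * s ^ 3 * L ≤ 8 * 1 * (L : ℝ) := by gcongr
      have e4 : ρ * 64 ≤ ρ * T := by gcongr
      linarith
    exact_mod_cast h1
  have hRM : (R : ℝ) ≤ s * M := by
    refine hRρ.trans ?_
    have e1 : s * (ρ * T) ≤ s * (s ^ 3 * M) := by
      calc s * (ρ * T) = s * ρ * T := by ring
        _ ≤ T * T := by gcongr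
        _ = T ^ 2 := by ring
        _ ≤ s ^ 4 * M := hTM
        _ = _ := by ring
    have e2 : ρ * T ≤ s ^ 3 * M := le_of_mul_le_mul_left e1 hs0
    have e3 : s ^ 3 * M ≤ s * M := by
      have : s ^ 3 ≤ s := by
        calc s ^ 3 = s * s ^ 2 := by ring
          _ ≤ s * 1 := by gcongr
          _ = s := mul_one _
      gcongr
    have e4 : ρ * 1 ≤ ρ * T := by gcongr; linarith
    linarith
  have hRη : (R : ℝ) ≤ s ^ (ε - 1) / Real.sqrt (1 / T) := by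
    refine hRρ.trans (le_of_eq ?_)
    rw [hρ, one_div, Real.sqrt_inv, div_inv_eq_mul]
  -- the torus
  have hq : ∫⁻ U, ENNReal.ofReal (MB ⟨E, 1 / T⟩ R U) ∂(gau d M v) ≤
      ENNReal.ofReal (s ^ θ₀ / (1 / T)) := by
    have h := H M R v σ E (1 / T) hv hσ (by rw [← hs]; exact hsc0) hE (by rw [← hs]; exact hM5)
      (by rw [← hs]; exact hMe') (by rw [← hs]; exact hMd d ε hd hε1)
      (by rw [← hs]; exact hTs) (by rw [← hs]; exact hRη) (by rw [← hs]; exact hRM)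
    rw [← hs] at h
    exact h
  -- pointwise
  have hpt : ∀ V : Site d → ℝ, ∑' x : Site d, (if (sd 0 x : ℝ) ≤ s ^ (ε - 1) * Real.sqrt T then
        ENNReal.ofReal (rh V T E x) else 0) ≤
      ENNReal.ofReal (2 / T) * ENNReal.ofReal
        (MB ⟨E, 1 / T⟩ R (fun p : Tor d M => V (0 + rep p))) +
        ENNReal.ofReal (2 * C * T ^ 7 / (L : ℝ) ^ 6) := by
    intro V
    have h1 := ltt0 (M := M) V (hC M L V 0 E (1 / T) 0 hη hη1 hL1 hLM (by
      rw [sd_self]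
      omega))
    have h2 := mass_le V hT0 hL1 hM2 hRL h1
    have hrh : ∀ x, 0 ≤ rh V T E x := fun x => by unfold rh; positivity
    have h3 : ∀ x : Site d, x ∉ box 0 R → (if (sd 0 x : ℝ) ≤ s ^ (ε - 1) * Real.sqrt T then
        ENNReal.ofReal (rh V T E x) else 0) = 0 := by
      intro x hx
      rw [mem_box] at hx
      refine if_neg fun h => hx ?_
      rw [← hρ] at h
      rw [hR]
      exact Nat.le_floor h
    rw [tsum_eq_sum (s := box 0 R) h3]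
    have h4 : ∑ x ∈ box (0 : Site d) R, (if (sd 0 x : ℝ) ≤ s ^ (ε - 1) * Real.sqrt T then
        ENNReal.ofReal (rh V T E x) else 0) ≤ ENNReal.ofReal (∑ x ∈ box (0 : Site d) R,
          rh V T E x) := by
      rw [ENNReal.ofReal_sum_of_nonneg (fun x _ => hrh x)]
      refine Finset.sum_le_sum fun x _ => ?_
      split_ifs
      · exact le_rfl
      · exact zero_le
    refine h4.trans ((ENNReal.ofReal_le_ofReal h2).trans ?_)
    refine (ENNReal.ofReal_add_le).trans ?_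
    rw [ENNReal.ofReal_mul (by positivity)]
  have hmq : Measurable fun U : Tor d M → ℝ => ENNReal.ofReal (MB ⟨E, 1 / T⟩ R U) :=
    (MB_meas (z := ⟨E, 1 / T⟩) hη R).ennreal_ofReal
  have hfm : Measurable fun (V : Site d → ℝ) (x : Tor d M) => V (0 + rep x) :=
    measurable_pi_lambda _ fun x => measurable_pi_apply _
  have hmq' : Measurable fun V : Site d → ℝ => ENNReal.ofReal
      (MB ⟨E, 1 / T⟩ R (fun p : Tor d M => V (0 + rep p))) := hmq.comp hfm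
  refine (lintegral_mono hpt).trans ?_
  rw [lintegral_add_right _ measurable_const, lintegral_const, measure_univ, mul_one,
    lintegral_const_mul _ hmq',
    lin_eq hσ hv 0 (fun U : Tor d M → ℝ => ENNReal.ofReal (MB ⟨E, 1 / T⟩ R U)) hmq]
  have h6 : ENNReal.ofReal (2 / T) * ∫⁻ U, ENNReal.ofReal (MB ⟨E, 1 / T⟩ R U) ∂(gau d M v) ≤
      ENNReal.ofReal (2 * s ^ θ₀) := by
    refine (mul_le_mul_right hq _).trans (le_of_eq ?_)
    rw [← ENNReal.ofReal_mul (by positivity)]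
    congr 1
    field_simp
  refine (add_le_add h6 le_rfl).trans ?_
  rw [← ENNReal.ofReal_add (by positivity) (by positivity)]
  apply ENNReal.ofReal_le_ofReal
  -- the final numbers
  have k1 : s ^ (θ₁ / 2) ≤ 1 / B := by
    have e1 : s ^ (θ₁ / 2) ≤ (B ^ (-(2 / θ₁))) ^ (θ₁ / 2) :=
      Real.rpow_le_rpow hs0.le hsB (by linarith)
    have e2 : (B ^ (-(2 / θ₁))) ^ (θ₁ / 2) = 1 / B := by
      rw [← Real.rpow_mul hB0.le]
      have : -(2 / θ₁) * (θ₁ / 2) = -1 := by field_simp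
      rw [this, Real.rpow_neg_one, one_div]
    rw [← e2]
    exact e1
  have k2 : s ^ θ₁ = s ^ (θ₁ / 2) * s ^ (θ₁ / 2) := by
    rw [← Real.rpow_add hs0]
    congr 1
    ring
  have k3 : s ^ θ₀ ≤ s ^ θ₁ := Real.rpow_le_rpow_of_exponent_ge hs0 hs1 hθ₁θ
  have k4 : s ≤ s ^ θ₁ := by
    have := Real.rpow_le_rpow_of_exponent_ge hs0 hs1 hθ₁1
    rwa [Real.rpow_one] at this
  have k5 : 2 * C * T ^ 7 / (L : ℝ) ^ 6 ≤ 524288 * C * s := by
    rw [div_le_iff₀ (by positivity)]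
    have e1 : T ^ 12 ≤ 262144 * s ^ 24 * (L : ℝ) ^ 6 := by
      calc T ^ 12 = (T ^ 2) ^ 6 := by ring
        _ ≤ (8 * s ^ 4 * (L : ℝ)) ^ 6 := by gcongr
        _ = 262144 * s ^ 24 * (L : ℝ) ^ 6 := by ring
    have e2 : T ^ 7 ≤ T ^ 12 := pow_le_pow_right₀ (by linarith) (by norm_num)
    have e3 : s ^ 24 ≤ s := by
      calc s ^ 24 ≤ s ^ 1 := pow_le_pow_of_le_one hs0.le hs1 (by norm_num)
        _ = s := pow_one s
    calc 2 * C * T ^ 7 ≤ 2 * C * T ^ 12 := by gcongr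
      _ ≤ 2 * C * (262144 * s ^ 24 * (L : ℝ) ^ 6) := by gcongr
      _ ≤ 2 * C * (262144 * s * (L : ℝ) ^ 6) := by gcongr
      _ = 524288 * C * s * (L : ℝ) ^ 6 := by ring
  have hp : 0 < s ^ (θ₁ / 2) := Real.rpow_pos_of_pos hs0 _
  calc 2 * s ^ θ₀ + 2 * C * T ^ 7 / (L : ℝ) ^ 6 ≤ 2 * s ^ θ₁ + 524288 * C * s ^ θ₁ := by
        have : 524288 * C * s ≤ 524288 * C * s ^ θ₁ := by gcongr
        linarith
    _ = B * s ^ (θ₁ / 2) * s ^ (θ₁ / 2) := by rw [hB, k2]; ring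
    _ ≤ B * (1 / B) * s ^ (θ₁ / 2) := by gcongr
    _ = s ^ (θ₁ / 2) := by
        rw [mul_one_div_cancel hB0.ne', one_mul]

end Pool.Agent.LE.QY.H60
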