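import Pool.Agent.Helper60_LQY.Base

/-!
# Squad LQY (MP_1906c1_mp), row SMZ: the diffusive upper bound on the lattice
-/

set_option autoImplicit false

open MeasureTheory ProbabilityTheory Function Filter

open scoped ENNReal BigOperators Topology NNReal ComplexOrder Matrix

noncomputable section

namespace Pool.Agent.LE.QY.H60

open Pool.Agent.Anderson hiding box mem_box card_box
open Pool.Agent.Loc Pool.Agent.Mob Pool.Agent.Helper54.Bal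
  Pool.Agent.Helper96.EXP Pool.Agent.BED
open Pool.Agent.LE.MN Pool.Agent.LE.CL Pool.Agent.LE.IR Pool.Agent.LE.QD Pool.Agent.LE.QF

/-- the second moment on the torus -/
def QQ {d M : ℕ} [NeZero M] (z : ℂ) (i : Fin d) (U : Tor d M → ℝ) : ℝ :=
  ∑ y, ‖rs U z 0 y‖ ^ 2 * (((0 - y) i).valMinAbs : ℝ) ^ 2

theorem QQ_nn {d M : ℕ} [NeZero M] (z : ℂ) (i : Fin d) (U : Tor d M → ℝ) : 0 ≤ QQ z i U :=
  Finset.sum_nonneg fun y _ => by positivity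

theorem QQ_meas {d M : ℕ} [NeZero M] {z : ℂ} (hz : 0 < z.im) (i : Fin d) :
    Measurable fun U : Tor d M → ℝ => QQ z i U :=
  Finset.measurable_sum _ fun y _ => (meas_rs hz 0 y).mul_const _

/-- the part in the box -/
theorem box_le {d M : ℕ} [NeZero M] (hd : 1 ≤ d) {C T E : ℝ} {L : ℕ} (V : Site d → ℝ)
    (hT : 0 < T) (hL : 1 ≤ L) (hM : 2 * L + 1 ≤ M)
    (h : ∑ y ∈ box 0 L, ‖G V ⟨E, 1 / T⟩ (del 0) y -
        rs (fun p : Tor d M => V (0 + rep p)) ⟨E, 1 / T⟩ 0 (ti M 0 y)‖ ^ 2 ≤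
          C / ((L : ℝ) ^ 6 * (1 / T) ^ 8)) :
    ∑ x ∈ box 0 L, (sd 0 x : ℝ) ^ 2 * rh V T E x ≤
      2 / T * ∑ i, QQ ⟨E, 1 / T⟩ i (fun p : Tor d M => V (0 + rep p)) +
        2 * C * T ^ 7 / (L : ℝ) ^ 4 := by
  have hL0 : (0 : ℝ) < L := by exact_mod_cast hL
  obtain ⟨W, hW⟩ : ∃ W : Tor d M → ℝ, W = fun p => V (0 + rep p) := ⟨_, rfl⟩
  obtain ⟨z, hz⟩ : ∃ z : ℂ, z = ⟨E, 1 / T⟩ := ⟨_, rfl⟩
  rw [← hW, ← hz] at h ⊢
  have h1 : ∀ x ∈ box (0 : Site d) L, (sd 0 x : ℝ) ^ 2 * rh V T E x ≤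
      2 / T * ∑ i, ‖rs W z 0 (ti M 0 x)‖ ^ 2 * (((0 - ti M 0 x) i).valMinAbs : ℝ) ^ 2 +
        2 / T * ((L : ℝ) ^ 2 * ‖G V z (del 0) x - rs W z 0 (ti M 0 x)‖ ^ 2) := by
    intro x hx
    have e1 : ∑ i, ‖rs W z 0 (ti M 0 x)‖ ^ 2 * (((0 - ti M 0 x) i).valMinAbs : ℝ) ^ 2 =
        ‖rs W z 0 (ti M 0 x)‖ ^ 2 * ∑ i, (x i : ℝ) ^ 2 := by
      rw [Finset.mul_sum]
      refine Finset.sum_congr rfl fun i _ => ?_
      rw [vma' hM hx i]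
    rw [e1]
    have e2 := sd_sq hd x
    have e3 : (sd 0 x : ℝ) ^ 2 ≤ (L : ℝ) ^ 2 := by
      rw [mem_box] at hx
      have : (sd 0 x : ℝ) ≤ L := by exact_mod_cast hx
      exact pow_le_pow_left₀ (Nat.cast_nonneg _) this 2
    have e4 := nsq (G V z (del 0) x) (rs W z 0 (ti M 0 x))
    unfold rh
    rw [← hz]
    have e5 : (sd 0 x : ℝ) ^ 2 * ‖G V z (del 0) x‖ ^ 2 ≤
        2 * (‖rs W z 0 (ti M 0 x)‖ ^ 2 * ∑ i, (x i : ℝ) ^ 2) +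
          2 * ((L : ℝ) ^ 2 * ‖G V z (del 0) x - rs W z 0 (ti M 0 x)‖ ^ 2) := by
      calc (sd 0 x : ℝ) ^ 2 * ‖G V z (del 0) x‖ ^ 2
          ≤ (sd 0 x : ℝ) ^ 2 * (2 * ‖rs W z 0 (ti M 0 x)‖ ^ 2 +
            2 * ‖G V z (del 0) x - rs W z 0 (ti M 0 x)‖ ^ 2) := by gcongr
        _ = 2 * (‖rs W z 0 (ti M 0 x)‖ ^ 2 * (sd 0 x : ℝ) ^ 2) +
            2 * ((sd 0 x : ℝ) ^ 2 * ‖G V z (del 0) x - rs W z 0 (ti M 0 x)‖ ^ 2) := by ring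
        _ ≤ _ := by gcongr
    calc (sd 0 x : ℝ) ^ 2 * (‖G V z (del 0) x‖ ^ 2 / T)
        = 1 / T * ((sd 0 x : ℝ) ^ 2 * ‖G V z (del 0) x‖ ^ 2) := by ring
      _ ≤ 1 / T * (2 * (‖rs W z 0 (ti M 0 x)‖ ^ 2 * ∑ i, (x i : ℝ) ^ 2) +
          2 * ((L : ℝ) ^ 2 * ‖G V z (del 0) x - rs W z 0 (ti M 0 x)‖ ^ 2)) := by gcongr
      _ = _ := by ring
  refine (Finset.sum_le_sum h1).trans ?_
  rw [Finset.sum_add_distrib, ← Finset.mul_sum, ← Finset.mul_sum, Finset.sum_comm,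
    ← Finset.mul_sum]
  have h2 : ∑ i, ∑ x ∈ box (0 : Site d) L,
      ‖rs W z 0 (ti M 0 x)‖ ^ 2 * (((0 - ti M 0 x) i).valMinAbs : ℝ) ^ 2 ≤ ∑ i, QQ z i W := by
    refine Finset.sum_le_sum fun i _ => ?_
    exact sum_ti hM (box 0 L) subset_rfl
      (fun y => ‖rs W z 0 y‖ ^ 2 * (((0 - y) i).valMinAbs : ℝ) ^ 2) (fun y => by positivity)
  have h3 : 2 / T * ((L : ℝ) ^ 2 * ∑ x ∈ box (0 : Site d) L,
      ‖G V z (del 0) x - rs W z 0 (ti M 0 x)‖ ^ 2) ≤ 2 * C * T ^ 7 / (L : ℝ) ^ 4 := by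
    calc 2 / T * ((L : ℝ) ^ 2 * ∑ x ∈ box (0 : Site d) L,
        ‖G V z (del 0) x - rs W z 0 (ti M 0 x)‖ ^ 2)
        ≤ 2 / T * ((L : ℝ) ^ 2 * (C / ((L : ℝ) ^ 6 * (1 / T) ^ 8))) := by gcongr
      _ = 2 * C * T ^ 7 / (L : ℝ) ^ 4 := by
        field_simp
  exact add_le_add (by gcongr) h3

/-- the bound for a fixed potential -/
theorem pt_le {d M : ℕ} [NeZero M] (hd : 1 ≤ d) {C C' T E : ℝ} {L : ℕ} (V : Site d → ℝ)
    (hT : 0 < T) (hL : 1 ≤ L) (hM : 2 * L + 1 ≤ M)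
    (h : ∑ y ∈ box 0 L, ‖G V ⟨E, 1 / T⟩ (del 0) y -
        rs (fun p : Tor d M => V (0 + rep p)) ⟨E, 1 / T⟩ 0 (ti M 0 y)‖ ^ 2 ≤
          C / ((L : ℝ) ^ 6 * (1 / T) ^ 8))
    (hs : Summable (fun y : Site d => (sd 0 y : ℝ) ^ 4 * ‖G V ⟨E, 1 / T⟩ (del 0) y‖ ^ 2))
    (hb : ∑' y : Site d, (sd 0 y : ℝ) ^ 4 * ‖G V ⟨E, 1 / T⟩ (del 0) y‖ ^ 2 ≤
      C' / (1 / T) ^ 6) (hC : 0 ≤ C) :
    ∑' x : Site d, ENNReal.ofReal ((sd 0 x : ℝ) ^ 2 * rh V T E x) ≤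
      ∑ i, ENNReal.ofReal (2 / T) * ENNReal.ofReal
        (QQ ⟨E, 1 / T⟩ i (fun p : Tor d M => V (0 + rep p))) +
        ENNReal.ofReal (2 * C * T ^ 7 / (L : ℝ) ^ 4 + C' * T ^ 5 / (L : ℝ) ^ 2) := by
  classical
  have hL0 : (0 : ℝ) < L := by exact_mod_cast hL
  have hrh : ∀ x, 0 ≤ rh V T E x := fun x => by unfold rh; positivity
  obtain ⟨F, hF⟩ : ∃ F : Site d → ℝ, F = fun x => (sd 0 x : ℝ) ^ 2 * rh V T E x := ⟨_, rfl⟩
  obtain ⟨F4, hF4⟩ : ∃ F4 : Site d → ℝ, F4 = fun x => 1 / ((L : ℝ) ^ 2 * T) *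
    ((sd 0 x : ℝ) ^ 4 * ‖G V ⟨E, 1 / T⟩ (del 0) x‖ ^ 2) := ⟨_, rfl⟩
  have hF0 : ∀ x, 0 ≤ F x := fun x => by
    rw [hF]
    exact mul_nonneg (by positivity) (hrh x)
  have hF40 : ∀ x, 0 ≤ F4 x := fun x => by rw [hF4]; positivity
  have h1 : ∀ x, ENNReal.ofReal (F x) ≤
      (if x ∈ box 0 L then ENNReal.ofReal (F x) else 0) + ENNReal.ofReal (F4 x) := by
    intro x
    split_ifs with hx
    · exact le_self_add
    · rw [zero_add]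
      apply ENNReal.ofReal_le_ofReal
      rw [mem_box, not_le] at hx
      have hx' : (L : ℝ) ≤ sd 0 x := by exact_mod_cast hx.le
      rw [hF, hF4]
      unfold rh
      simp only
      rw [one_div_mul_eq_div, le_div_iff₀ (by positivity)]
      calc (sd 0 x : ℝ) ^ 2 * (‖G V ⟨E, 1 / T⟩ (del 0) x‖ ^ 2 / T) * ((L : ℝ) ^ 2 * T)
          = (sd 0 x : ℝ) ^ 2 * (L : ℝ) ^ 2 * ‖G V ⟨E, 1 / T⟩ (del 0) x‖ ^ 2 := by
            field_simp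
        _ ≤ (sd 0 x : ℝ) ^ 2 * (sd 0 x : ℝ) ^ 2 * ‖G V ⟨E, 1 / T⟩ (del 0) x‖ ^ 2 := by gcongr
        _ = _ := by ring
  have h2 : ∑' x : Site d, ENNReal.ofReal (F4 x) ≤ ENNReal.ofReal (C' * T ^ 5 / (L : ℝ) ^ 2) := by
    have hs4 : Summable F4 := by
      rw [hF4]
      exact hs.mul_left _
    rw [← ENNReal.ofReal_tsum_of_nonneg hF40 hs4]
    apply ENNReal.ofReal_le_ofReal
    rw [hF4, tsum_mul_left]
    calc 1 / ((L : ℝ) ^ 2 * T) * ∑' x : Site d, (sd 0 x : ℝ) ^ 4 *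
        ‖G V ⟨E, 1 / T⟩ (del 0) x‖ ^ 2
        ≤ 1 / ((L : ℝ) ^ 2 * T) * (C' / (1 / T) ^ 6) := by gcongr
      _ = C' * T ^ 5 / (L : ℝ) ^ 2 := by field_simp
  have h3 : ∑' x : Site d, (if x ∈ box 0 L then ENNReal.ofReal (F x) else 0) ≤
      ∑ i, ENNReal.ofReal (2 / T) * ENNReal.ofReal
        (QQ ⟨E, 1 / T⟩ i (fun p : Tor d M => V (0 + rep p))) +
        ENNReal.ofReal (2 * C * T ^ 7 / (L : ℝ) ^ 4) := by
    rw [tsum_eq_sum (s := box 0 L) (fun x hx => if_neg hx)]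
    have e1 : ∑ x ∈ box (0 : Site d) L, (if x ∈ box 0 L then ENNReal.ofReal (F x) else 0) =
        ENNReal.ofReal (∑ x ∈ box (0 : Site d) L, F x) := by
      rw [ENNReal.ofReal_sum_of_nonneg (fun x _ => hF0 x)]
      exact Finset.sum_congr rfl fun x hx => if_pos hx
    rw [e1]
    have e2 := box_le (M := M) hd V hT hL hM h
    have e3 : ∑ x ∈ box (0 : Site d) L, F x = ∑ x ∈ box 0 L, (sd 0 x : ℝ) ^ 2 * rh V T E x := by
      rw [hF]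
    rw [e3]
    refine (ENNReal.ofReal_le_ofReal e2).trans ?_
    refine (ENNReal.ofReal_add_le).trans ?_
    refine add_le_add (le_of_eq ?_) le_rfl
    rw [Finset.mul_sum, ENNReal.ofReal_sum_of_nonneg
      (fun i _ => mul_nonneg (by positivity) (QQ_nn _ _ _))]
    exact Finset.sum_congr rfl fun i _ => ENNReal.ofReal_mul (by positivity)
  have hC'0 : 0 ≤ C' * T ^ 5 / (L : ℝ) ^ 2 := by
    have h5 : 0 ≤ ∑' y : Site d, (sd 0 y : ℝ) ^ 4 * ‖G V ⟨E, 1 / T⟩ (del 0) y‖ ^ 2 :=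
      tsum_nonneg fun y => by positivity
    have h6 := h5.trans hb
    have h7 : C' / (1 / T) ^ 6 = C' * T ^ 6 := by field_simp
    rw [h7] at h6
    have h8 : C' * T ^ 5 / (L : ℝ) ^ 2 = C' * T ^ 6 * (1 / (T * (L : ℝ) ^ 2)) := by
      field_simp
    rw [h8]
    positivity
  have h4 : ∑' x : Site d, ENNReal.ofReal ((sd 0 x : ℝ) ^ 2 * rh V T E x) =
      ∑' x, ENNReal.ofReal (F x) := by rw [hF]
  rw [h4, ENNReal.ofReal_add (by positivity) hC'0, ← add_assoc]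
  refine (ENNReal.tsum_le_tsum h1).trans ?_
  rw [ENNReal.tsum_add]
  exact add_le_add h3 h2

theorem smz (tsm : TsmStmt) (ltt : LttStmt) (bal : BalStmt) : SmzStmt := by
  intro d a ε hd ha hε hε1
  have hd1 : 1 ≤ d := by omega
  obtain ⟨θ₀, c₀, hθ₀, hc₀, hc₀4, H⟩ := tsm d a (ε / 2) hd ha (by linarith) (by linarith)
  obtain ⟨C, hC1, hC⟩ := ltt d hd1
  obtain ⟨C', hC'1, hC'⟩ := bal d hd1
  obtain ⟨c₁, hc₁, hc₁4, hn⟩ := nums hθ₀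
  obtain ⟨B, hB⟩ : ∃ B : ℝ, B = 2 * d + 8192 * C + 64 * C' := ⟨_, rfl⟩
  have hB1 : 1 ≤ B := by
    rw [hB]
    have : (0 : ℝ) ≤ d := Nat.cast_nonneg d
    linarith
  have hB0 : 0 < B := by linarith
  refine ⟨θ₀ / 2, min (min c₀ c₁) (B ^ (-(2 / ε))), by linarith,
    lt_min (lt_min hc₀ hc₁) (Real.rpow_pos_of_pos hB0 _),
    (min_le_left _ _).trans ((min_le_left _ _).trans hc₀4), ?_⟩
  intro σ E T hσ hσc hE hT hTe
  obtain ⟨s, hs⟩ : ∃ s : ℝ, s = |σ| := ⟨_, rfl⟩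
  rw [← hs] at hσc hT hTe ⊢
  have hs0 : 0 < s := hs ▸ abs_pos.2 hσ
  have hsc0 : s ≤ c₀ := hσc.trans ((min_le_left _ _).trans (min_le_left _ _))
  have hsc1 : s ≤ c₁ := hσc.trans ((min_le_left _ _).trans (min_le_right _ _))
  have hsB : s ≤ B ^ (-(2 / ε)) := hσc.trans (min_le_right _ _)
  have hs1 : s ≤ 1 := by linarith
  obtain ⟨hT64, hT3, hTs, M, L, hM0, hL1, hLM, hTM, hTL, hM5, hMe, hMd⟩ :=
    hn s T hs0 hsc1 hT hTe
  have : NeZero M := ⟨hM0⟩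
  have hT0 : 0 < T := by linarith
  have hη : 0 < 1 / T := by positivity
  have hη1 : 1 / T ≤ 1 := by
    rw [div_le_one hT0]
    linarith
  have hM2 : 2 * L + 1 ≤ M := by omega
  have hL0 : (0 : ℝ) < L := by exact_mod_cast hL1
  obtain ⟨v, hv⟩ : ∃ v : ℝ≥0, (v : ℝ) = σ ^ 2 := ⟨⟨σ ^ 2, sq_nonneg σ⟩, rfl⟩
  -- the torus
  have hq : ∀ i, ∫⁻ U, ENNReal.ofReal (QQ ⟨E, 1 / T⟩ i U) ∂(gau d M v) ≤
      ENNReal.ofReal (s ^ (-2 - ε / 2) / (1 / T) ^ 2) := by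
    intro i
    have h := H M v σ E (1 / T) i hv hσ (by rw [← hs]; exact hsc0) hE (by rw [← hs]; exact hM5)
      (by rw [← hs]; exact hMe) (by rw [← hs]; exact hMd d (ε / 2) hd (by linarith))
      (by rw [← hs]; exact hTs)
    rw [← hs] at h
    exact h
  -- pointwise
  have hpt : ∀ V : Site d → ℝ, ∑' x : Site d, ENNReal.ofReal ((sd 0 x : ℝ) ^ 2 * rh V T E x) ≤
      ∑ i, ENNReal.ofReal (2 / T) * ENNReal.ofReal
        (QQ ⟨E, 1 / T⟩ i (fun p : Tor d M => V (0 + rep p))) +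
        ENNReal.ofReal (2 * C * T ^ 7 / (L : ℝ) ^ 4 + C' * T ^ 5 / (L : ℝ) ^ 2) := by
    intro V
    have h1 := ltt0 (M := M) V (hC M L V 0 E (1 / T) 0 hη hη1 hL1 hLM (by
      rw [sd_self]
      omega))
    obtain ⟨h2, h3⟩ := hC' V E (1 / T) 0 hη hη1
    exact pt_le hd1 V hT0 hL1 hM2 h1 h2 h3 (by linarith)
  have hmq : ∀ i, Measurable fun U : Tor d M → ℝ => ENNReal.ofReal (QQ ⟨E, 1 / T⟩ i U) :=
    fun i => (QQ_meas (z := ⟨E, 1 / T⟩) hη i).ennreal_ofReal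
  have hfm : Measurable fun (V : Site d → ℝ) (x : Tor d M) => V (0 + rep x) :=
    measurable_pi_lambda _ fun x => measurable_pi_apply _
  have hmq' : ∀ i, Measurable fun V : Site d → ℝ => ENNReal.ofReal
      (QQ ⟨E, 1 / T⟩ i (fun p : Tor d M => V (0 + rep p))) := fun i => (hmq i).comp hfm
  refine (lintegral_mono hpt).trans ?_
  rw [lintegral_add_right _ measurable_const, lintegral_const, measure_univ, mul_one,
    lintegral_finsetSum _ (fun i _ => (hmq' i).const_mul _)]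
  have h5 : ∀ i, ∫⁻ V, ENNReal.ofReal (2 / T) * ENNReal.ofReal
      (QQ ⟨E, 1 / T⟩ i (fun p : Tor d M => V (0 + rep p))) ∂(PP d (gl σ)) ≤
      ENNReal.ofReal (2 * T * s ^ (-2 - ε / 2)) := by
    intro i
    rw [lintegral_const_mul _ (hmq' i),
      lin_eq hσ hv 0 (fun U : Tor d M → ℝ => ENNReal.ofReal (QQ ⟨E, 1 / T⟩ i U)) (hmq i)]
    refine (mul_le_mul_right (hq i) _).trans (le_of_eq ?_)
    rw [← ENNReal.ofReal_mul (by positivity)]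
    congr 1
    field_simp
  have h6 : ∑ i : Fin d, ∫⁻ V, ENNReal.ofReal (2 / T) * ENNReal.ofReal
      (QQ ⟨E, 1 / T⟩ i (fun p : Tor d M => V (0 + rep p))) ∂(PP d (gl σ)) ≤
      ENNReal.ofReal (d * (2 * T * s ^ (-2 - ε / 2))) := by
    refine (Finset.sum_le_sum fun i _ => h5 i).trans (le_of_eq ?_)
    rw [Finset.sum_const, Finset.card_univ, Fintype.card_fin, nsmul_eq_mul,
      ← ENNReal.ofReal_natCast, ← ENNReal.ofReal_mul (Nat.cast_nonneg _)]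
  have hp : 0 < s ^ (-2 - ε / 2) := Real.rpow_pos_of_pos hs0 _
  refine (add_le_add h6 le_rfl).trans ?_
  rw [← ENNReal.ofReal_add (by positivity) (by positivity)]
  apply ENNReal.ofReal_le_ofReal
  -- the final numbers
  have k1 : 1 ≤ s ^ (-2 - ε / 2) :=
    Real.one_le_rpow_of_pos_of_le_one_of_nonpos hs0 hs1 (by linarith)
  have k2 : B ≤ s ^ (-(ε / 2)) := by
    have e1 : (B ^ (-(2 / ε))) ^ (-(ε / 2)) ≤ s ^ (-(ε / 2)) :=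
      Real.rpow_le_rpow_of_nonpos hs0 hsB (by linarith)
    have e2 : (B ^ (-(2 / ε))) ^ (-(ε / 2)) = B := by
      rw [← Real.rpow_mul hB0.le]
      have : -(2 / ε) * -(ε / 2) = 1 := by field_simp
      rw [this, Real.rpow_one]
    rw [← e2]
    exact e1
  have k3 : s ^ (-2 - ε) = s ^ (-2 - ε / 2) * s ^ (-(ε / 2)) := by
    rw [← Real.rpow_add hs0]
    congr 1
    ring
  have hs4 : s ^ 4 ≤ 1 := pow_le_one₀ hs0.le hs1
  have hTL' : T ^ 2 ≤ 8 * L := by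
    calc T ^ 2 ≤ 8 * s ^ 4 * L := hTL
      _ ≤ 8 * 1 * L := by gcongr
      _ = 8 * L := by ring
  have k4 : 2 * C * T ^ 7 / (L : ℝ) ^ 4 ≤ 8192 * C * T := by
    rw [div_le_iff₀ (by positivity)]
    have e1 : T ^ 8 ≤ 4096 * (L : ℝ) ^ 4 := by
      calc T ^ 8 = (T ^ 2) ^ 4 := by ring
        _ ≤ (8 * (L : ℝ)) ^ 4 := by gcongr
        _ = 4096 * (L : ℝ) ^ 4 := by ring
    have e2 : T ^ 7 ≤ T ^ 8 := pow_le_pow_right₀ (by linarith) (by norm_num)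
    have e3 : (1 : ℝ) ≤ T := by linarith
    calc 2 * C * T ^ 7 ≤ 2 * C * T ^ 8 := by gcongr
      _ ≤ 2 * C * (4096 * (L : ℝ) ^ 4) := by gcongr
      _ = 8192 * C * 1 * (L : ℝ) ^ 4 := by ring
      _ ≤ 8192 * C * T * (L : ℝ) ^ 4 := by gcongr
  have k5 : C' * T ^ 5 / (L : ℝ) ^ 2 ≤ 64 * C' * T := by
    rw [div_le_iff₀ (by positivity)]
    have e1 : T ^ 4 ≤ 64 * (L : ℝ) ^ 2 := by
      calc T ^ 4 = (T ^ 2) ^ 2 := by ring
        _ ≤ (8 * (L : ℝ)) ^ 2 := by gcongr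
        _ = 64 * (L : ℝ) ^ 2 := by ring
    calc C' * T ^ 5 = C' * T * T ^ 4 := by ring
      _ ≤ C' * T * (64 * (L : ℝ) ^ 2) := by gcongr
      _ = 64 * C' * T * (L : ℝ) ^ 2 := by ring
  calc d * (2 * T * s ^ (-2 - ε / 2)) + (2 * C * T ^ 7 / (L : ℝ) ^ 4 + C' * T ^ 5 / (L : ℝ) ^ 2)
      ≤ d * (2 * T * s ^ (-2 - ε / 2)) + (8192 * C * T + 64 * C' * T) := by gcongr
    _ = 2 * d * (T * s ^ (-2 - ε / 2)) + (8192 * C + 64 * C') * (T * 1) := by ring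
    _ ≤ 2 * d * (T * s ^ (-2 - ε / 2)) + (8192 * C + 64 * C') * (T * s ^ (-2 - ε / 2)) := by
        gcongr
    _ = B * (T * s ^ (-2 - ε / 2)) := by rw [hB]; ring
    _ ≤ s ^ (-(ε / 2)) * (T * s ^ (-2 - ε / 2)) := by gcongr
    _ = s ^ (-2 - ε) * T := by rw [k3]; ring

end Pool.Agent.LE.QY.H60
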